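import Pool.Agent.V11288.SZ.Core
import Pool.Agent.V11288.SZ.Min

/-!
Global minimal equations and the pairs `(c₄, c₆)`.
-/

set_option autoImplicit false

namespace Pool.Agent.V11288.SZ

/-- a global minimal equation cannot be scaled down by more than `6` -/
theorem gmin_small {W : WeierstrassCurve ℤ} (hW : GMin W) (w : ℕ) (hw : 0 < w) (a b : ℤ)
    (h4 : 27 * W.c₄ = (w : ℤ) ^ 4 * a) (h6 : 54 * W.c₆ = (w : ℤ) ^ 6 * b) : w ≤ 6 := by
  have hwQ : (w : ℚ) ≠ 0 := by exact_mod_cast hw.ne'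
  have h4Q : 27 * (W.c₄ : ℚ) = (w : ℚ) ^ 4 * a := by exact_mod_cast h4
  have h6Q : 54 * (W.c₆ : ℚ) = (w : ℚ) ^ 6 * b := by exact_mod_cast h6
  have hv : (6 / (w : ℚ)) ≠ 0 := div_ne_zero (by norm_num) hwQ
  have e4 : 48 * (a : ℚ) = (6 / (w : ℚ)) ^ 4 * W.c₄ := by
    field_simp
    linear_combination (-48) * h4Q
  have e6 : 864 * (b : ℚ) = (6 / (w : ℚ)) ^ 6 * W.c₆ := by
    field_simp
    linear_combination (-864) * h6Q
  have hle := hW.2 _ (iso_short W _ hv a b e4 e6)
  have hΔ : (w : ℤ) ^ 12 * (shortW a b).Δ = 6 ^ 12 * W.Δ := by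
    have k1 := W.c_relation
    have k2 := (shortW a b).c_relation
    rw [shortW_c4, shortW_c6] at k2
    have k3 : 1728 * ((w : ℤ) ^ 12 * (shortW a b).Δ) =
        1728 * (6 ^ 12 * W.Δ) := by
      have k4 : 1728 * ((w : ℤ) ^ 12 * (shortW a b).Δ) =
          48 ^ 3 * ((w : ℤ) ^ 4 * a) ^ 3 - 864 ^ 2 * ((w : ℤ) ^ 6 * b) ^ 2 := by
        linear_combination (w : ℤ) ^ 12 * k2
      rw [k4, ← h4, ← h6]
      linear_combination (-(6 : ℤ) ^ 12) * k1
    linarith
  by_contra hc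
  have h7 : (7 : ℤ) ≤ w := by
    have : 7 ≤ w := by omega
    exact_mod_cast this
  have h8 : (7 : ℤ) ^ 12 ≤ (w : ℤ) ^ 12 := pow_le_pow_left₀ (by norm_num) h7 12
  have h9 : (w : ℤ) ^ 12 * |(shortW a b).Δ| = 6 ^ 12 * |W.Δ| := by
    have := congrArg abs hΔ
    rw [abs_mul, abs_mul, abs_of_nonneg (by positivity : (0 : ℤ) ≤ (w : ℤ) ^ 12),
      abs_of_nonneg (by positivity : (0 : ℤ) ≤ (6 : ℤ) ^ 12)] at this
    exact this
  have h10 : 0 < |W.Δ| := abs_pos.2 hW.1
  have h11 : (7 : ℤ) ^ 12 * |W.Δ| ≤ (w : ℤ) ^ 12 * |(shortW a b).Δ| :=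
    mul_le_mul h8 hle (abs_nonneg _) (by positivity)
  rw [h9] at h11
  norm_num at h11
  linarith

theorem gmin_two {W : WeierstrassCurve ℤ} (hW : GMin W) :
    ¬ ((2 : ℤ) ^ 18 ∣ W.c₄ ∧ (2 : ℤ) ^ 18 ∣ W.c₆) := by
  rintro ⟨⟨u, hu⟩, ⟨v, hv⟩⟩
  have := gmin_small hW 8 (by norm_num) (27 * 2 ^ 6 * u) (54 * v) (by rw [hu]; push_cast; ring)
    (by rw [hv]; push_cast; ring)
  omega

theorem gmin_three {W : WeierstrassCurve ℤ} (hW : GMin W) :
    ¬ ((3 : ℤ) ^ 18 ∣ W.c₄ ∧ (3 : ℤ) ^ 18 ∣ W.c₆) := by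
  rintro ⟨⟨u, hu⟩, ⟨v, hv⟩⟩
  have := gmin_small hW 9 (by norm_num) (27 * 3 ^ 10 * u) (54 * 3 ^ 6 * v)
    (by rw [hu]; push_cast; ring) (by rw [hv]; push_cast; ring)
  omega

/-- the conductor outside `6` -/
theorem N6_eq (W : WeierstrassCurve ℤ) :
    N6 W.c₄ W.c₆ = ∏ p ∈ W.Δ.natAbs.primeFactors.filter (fun p => 5 ≤ p),
      if (p : ℤ) ∣ W.c₄ then p ^ 2 else p := by
  unfold N6
  refine Finset.prod_congr ?_ fun _ _ => rfl
  have h1 : W.c₄ ^ 3 - W.c₆ ^ 2 = 1728 * W.Δ := by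
    have := W.c_relation
    linear_combination -this
  rw [h1]
  ext p
  simp only [Finset.mem_filter, Nat.mem_primeFactors, Int.natAbs_mul, ne_eq, mul_eq_zero,
    Int.natAbs_eq_zero, OfNat.ofNat_ne_zero, false_or]
  have h2 : (1728 : ℤ).natAbs = 2 ^ 6 * 3 ^ 3 := by norm_num
  constructor
  · rintro ⟨⟨hp, hd, h0⟩, h5⟩
    refine ⟨⟨hp, ?_, h0⟩, h5⟩
    rcases (Nat.Prime.dvd_mul hp).1 hd with h | h
    · exfalso
      rw [h2] at h
      rcases (Nat.Prime.dvd_mul hp).1 h with h | h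
      · have := Nat.le_of_dvd (by norm_num) (hp.dvd_of_dvd_pow h)
        omega
      · have := Nat.le_of_dvd (by norm_num) (hp.dvd_of_dvd_pow h)
        omega
    · exact h
  · rintro ⟨⟨hp, hd, h0⟩, h5⟩
    exact ⟨⟨hp, hd.mul_left _, h0⟩, h5⟩

/-- the case `x = 0` or `y = 0` -/
theorem zero_case (G : ℕ) (x y : ℤ) (h0 : x = 0 ∨ y = 0) (hn : x ^ 3 - y ^ 2 ≠ 0)
    (hmin : ∀ p : ℕ, p.Prime → 5 ≤ p → ¬ ((p : ℤ) ^ 4 ∣ x ∧ (p : ℤ) ^ 6 ∣ y))
    (hmin2 : ¬ ((2 : ℤ) ^ G ∣ x ∧ (2 : ℤ) ^ G ∣ y)) (hmin3 : ¬ ((3 : ℤ) ^ G ∣ x ∧ (3 : ℤ) ^ G ∣ y)) :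
    max (|(x : ℝ)| ^ 3) ((y : ℝ) ^ 2) ≤ 6 ^ (3 * G) * (N6 x y : ℝ) ^ 6 := by
  have hN0 : N6 x y ≠ 0 := (N6_pos x y).ne'
  have hdvd : (x ^ 3 - y ^ 2).natAbs ∣ 6 ^ (3 * G) * N6 x y ^ 6 := by
    have hn0 : (x ^ 3 - y ^ 2).natAbs ≠ 0 := by simpa using hn
    rw [← Nat.factorization_prime_le_iff_dvd hn0
      (mul_ne_zero (pow_ne_zero _ (by norm_num)) (pow_ne_zero _ hN0))]
    intro p hp
    rw [Nat.factorization_mul (pow_ne_zero _ (by norm_num)) (pow_ne_zero _ hN0), Finsupp.add_apply,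
      Nat.factorization_pow, Finsupp.smul_apply, Nat.factorization_pow, Finsupp.smul_apply,
      smul_eq_mul, smul_eq_mul]
    have hpZ : Prime (p : ℤ) := Nat.prime_iff_prime_int.mp hp
    -- the exponent of `p`
    have hsmall : ∀ E : ℕ, (x ^ 3 - y ^ 2).natAbs.factorization p ≤ E ∨
        (p : ℤ) ^ (E + 1) ∣ x ^ 3 - y ^ 2 := by
      intro E
      by_cases h : (x ^ 3 - y ^ 2).natAbs.factorization p ≤ E
      · exact Or.inl h
      · right
        rw [natAbs_pow_dvd, hp.pow_dvd_iff_le_factorization hn0]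
        omega
    have hfx : ∀ k, x ≠ 0 → ((p : ℤ) ^ k ∣ x ↔ k ≤ x.natAbs.factorization p) := by
      intro k hx
      rw [natAbs_pow_dvd, hp.pow_dvd_iff_le_factorization (by simpa using hx)]
    have hfy : ∀ k, y ≠ 0 → ((p : ℤ) ^ k ∣ y ↔ k ≤ y.natAbs.factorization p) := by
      intro k hy
      rw [natAbs_pow_dvd, hp.pow_dvd_iff_le_factorization (by simpa using hy)]
    have hval : ∃ α β : ℕ, (x ^ 3 - y ^ 2).natAbs.factorization p = max (3 * α) (2 * β) ∧
        (α = 0 ∨ β = 0) ∧ (∀ k, (α = 0 → (p : ℤ) ^ k ∣ x ∨ k = 0 ∨ ¬ (p : ℤ) ∣ x ^ 3 - y ^ 2) ∧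
          (β = 0 → (p : ℤ) ^ k ∣ y ∨ k = 0 ∨ ¬ (p : ℤ) ∣ x ^ 3 - y ^ 2)) ∧
        (∀ k ≤ α, (p : ℤ) ^ k ∣ x) ∧ (∀ k ≤ β, (p : ℤ) ^ k ∣ y) ∧
        ((p : ℤ) ∣ x ^ 3 - y ^ 2 → (p : ℤ) ∣ x) := by
      rcases h0 with h | h
      · have hy : y ≠ 0 := by
          rintro rfl
          apply hn
          rw [h]; ring
        refine ⟨0, y.natAbs.factorization p, ?_, Or.inl rfl, ?_, ?_, ?_, ?_⟩
        · rw [h]
          have : ((0 : ℤ) ^ 3 - y ^ 2).natAbs = y.natAbs ^ 2 := by
            rw [← Int.natAbs_pow]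
            simp
          rw [this, Nat.factorization_pow, Finsupp.smul_apply, smul_eq_mul]
          omega
        · intro k
          refine ⟨fun _ => Or.inl (h ▸ dvd_zero _), fun hb => ?_⟩
          right; right
          intro hd
          rw [h] at hd
          have h1 : (p : ℤ) ∣ y := by
            have : (p : ℤ) ∣ y ^ 2 := by
              have h2 : (0 : ℤ) ^ 3 - y ^ 2 = -(y ^ 2) := by ring
              rw [h2] at hd
              exact (dvd_neg).1 hd
            exact hpZ.dvd_of_dvd_pow this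
          have := (hfy 1 hy).1 (by simpa using h1)
          omega
        · intro k _
          exact h ▸ dvd_zero _
        · intro k hk
          exact (hfy k hy).2 hk
        · intro _
          exact h ▸ dvd_zero _
      · have hx : x ≠ 0 := by
          rintro rfl
          apply hn
          rw [h]; ring
        have hd1 : (p : ℤ) ∣ x ^ 3 - y ^ 2 → (p : ℤ) ∣ x := by
          intro hd
          rw [h] at hd
          have h2 : x ^ 3 - (0 : ℤ) ^ 2 = x ^ 3 := by ring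
          rw [h2] at hd
          exact hpZ.dvd_of_dvd_pow hd
        refine ⟨x.natAbs.factorization p, 0, ?_, Or.inr rfl, ?_, ?_, ?_, hd1⟩
        · rw [h]
          have : (x ^ 3 - (0 : ℤ) ^ 2).natAbs = x.natAbs ^ 3 := by
            rw [← Int.natAbs_pow]
            simp
          rw [this, Nat.factorization_pow, Finsupp.smul_apply, smul_eq_mul]
          omega
        · intro k
          refine ⟨fun ha => ?_, fun _ => Or.inl (h ▸ dvd_zero _)⟩
          right; right
          intro hd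
          have := (hfx 1 hx).1 (by simpa using hd1 hd)
          omega
        · intro k hk
          exact (hfx k hx).2 hk
        · intro k _
          exact h ▸ dvd_zero _
    obtain ⟨α, β, e1, e2, e3, e4, e5, e6⟩ := hval
    rw [e1]
    by_cases hd : (p : ℤ) ∣ x ^ 3 - y ^ 2
    · have hkx : ∀ k, α = 0 → (p : ℤ) ^ k ∣ x := by
        intro k ha
        rcases (e3 k).1 ha with h | h | h
        · exact h
        · rw [h]; simp
        · exact absurd hd h
      have hky : ∀ k, β = 0 → (p : ℤ) ^ k ∣ y := by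
        intro k hb
        rcases (e3 k).2 hb with h | h | h
        · exact h
        · rw [h]; simp
        · exact absurd hd h
      by_cases h5 : 5 ≤ p
      · have hNf := N6_fac x y hp h5 hd hn
        rw [if_pos (e6 hd)] at hNf
        rw [hNf]
        have h1 := hmin p hp h5
        have ha : α ≤ 3 ∨ β ≤ 5 := by
          by_contra hc
          push Not at hc
          exact h1 ⟨e4 4 (by omega), e5 6 (by omega)⟩
        rcases e2 with h | h
        · -- `α = 0`
          have hb : β ≤ 5 := by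
            by_contra hc
            exact h1 ⟨hkx 4 h, e5 6 (by omega)⟩
          omega
        · have ha' : α ≤ 3 := by
            by_contra hc
            exact h1 ⟨e4 4 (by omega), hky 6 h⟩
          omega
      · have h23 : p = 2 ∨ p = 3 := by
          have := hp.two_le
          have h4 : p ≠ 4 := by
            rintro rfl
            exact absurd hp (by norm_num)
          omega
        have h6 : (6 : ℕ).factorization p = 1 := by
          have : (6 : ℕ) = 2 * 3 := by norm_num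
          rw [this, Nat.factorization_mul (by norm_num) (by norm_num), Finsupp.add_apply,
            Nat.prime_two.factorization, Nat.prime_three.factorization]
          rcases h23 with rfl | rfl <;> simp
        rw [h6]
        have hcon : ¬ ((p : ℤ) ^ G ∣ x ∧ (p : ℤ) ^ G ∣ y) := by
          rcases h23 with rfl | rfl
          · exact_mod_cast hmin2
          · exact_mod_cast hmin3
        rcases e2 with h | h
        · have hb : β < G := by
            by_contra hc
            exact hcon ⟨hkx G h, e5 G (by omega)⟩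
          omega
        · have ha' : α < G := by
            by_contra hc
            exact hcon ⟨e4 G (by omega), hky G h⟩
          omega
    · have h1 : (x ^ 3 - y ^ 2).natAbs.factorization p = 0 :=
        Nat.factorization_eq_zero_of_not_dvd (fun h => hd (Int.natCast_dvd.2 h))
      rw [← e1, h1]
      exact Nat.zero_le _
  have hle := Nat.le_of_dvd (by have := N6_pos x y; positivity) hdvd
  have hleR : (((x ^ 3 - y ^ 2).natAbs : ℕ) : ℝ) ≤ 6 ^ (3 * G) * (N6 x y : ℝ) ^ 6 := by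
    exact_mod_cast hle
  have habs : (((x ^ 3 - y ^ 2).natAbs : ℕ) : ℝ) = |(x : ℝ) ^ 3 - (y : ℝ) ^ 2| := by
    rw [Nat.cast_natAbs]
    push_cast
    rfl
  rw [habs] at hleR
  refine le_trans ?_ hleR
  rcases h0 with h | h
  · rw [h]
    simp
    exact sq_nonneg _
  · rw [h]
    simp [abs_pow]

end Pool.Agent.V11288.SZ
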