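import Pool.Agent.Y724.T4.ABQ
import Pool.Agent.V11288.SZ.Glob

/-!
The unconditional form of the core theorem.
-/

set_option autoImplicit false

namespace Pool.Agent.V11288.SZ

theorem abq (S : Finset ℕ) (hS : ∀ p ∈ S, p.Prime) (l m : ℕ) (B ε : ℝ) (hε : 0 < ε) :
    ABQ S l m B ε := by
  obtain ⟨δ, C, hδ, hmain⟩ :=
    Pool.Agent.Y724.T4.abq_core ℚ (Module.finrank_self ℚ) S hS l m B ε hε
  refine ⟨δ, C, hδ, ?_⟩
  intro a b c ha hb hab hsum ρ t hρ ht h1 h2 h3 h4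
  exact hmain a b c ha hb hab hsum ρ t hρ ht (fun i => by
    fin_cases i
    · exact h1
    · exact h2
    · exact h3
    · exact h4)

/-- Szpiro's inequality for the sparse pairs -/
theorem final (S : Finset ℕ) (hS : ∀ p ∈ S, p.Prime) (G l m : ℕ)
    (B ε : ℝ) (hε : 0 < ε) :
    ∃ (δ C : ℝ), 0 < δ ∧ 0 < C ∧ ∀ (x y : ℤ), x ^ 3 - y ^ 2 ≠ 0 →
      (∀ p : ℕ, p.Prime → 5 ≤ p → ¬ ((p : ℤ) ^ 4 ∣ x ∧ (p : ℤ) ^ 6 ∣ y)) →
      ¬ ((2 : ℤ) ^ G ∣ x ∧ (2 : ℤ) ^ G ∣ y) → ¬ ((3 : ℤ) ^ G ∣ x ∧ (3 : ℤ) ^ G ∣ y) →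
      (x = 0 ∨ y = 0 ∨ ∃ (ρ : ℕ) (t : ℚ), 0 < ρ ∧
        (∀ p : ℕ, p.Prime → p ∉ S →
          ((p : ℤ) ∣ 6 * (x ^ 3 - y ^ 2) → ¬ p ^ 2 ∣ ρ) ∧
          (¬ (p : ℤ) ∣ 6 * (x ^ 3 - y ^ 2) →
            ρ.factorization p ≤ (x * y).natAbs.factorization p)) ∧
        (ρ : ℚ) ^ m = (x ^ 3 / (x ^ 3).gcd (y ^ 2)) * (y ^ 2 / (x ^ 3).gcd (y ^ 2)) *
          ((x ^ 3 - y ^ 2) / (x ^ 3).gcd (y ^ 2)) * t ∧
        IsSparse S l (B * (max (|(x : ℝ)| ^ 3) ((y : ℝ) ^ 2) / (x ^ 3).gcd (y ^ 2)) ^ δ)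
          (x ^ 3 / (x ^ 3).gcd (y ^ 2)) ∧
        IsSparse S l (B * (max (|(x : ℝ)| ^ 3) ((y : ℝ) ^ 2) / (x ^ 3).gcd (y ^ 2)) ^ δ)
          (y ^ 2 / (x ^ 3).gcd (y ^ 2)) ∧
        IsSparse S l (B * (max (|(x : ℝ)| ^ 3) ((y : ℝ) ^ 2) / (x ^ 3).gcd (y ^ 2)) ^ δ) ρ ∧
        IsSparse S l (B * (max (|(x : ℝ)| ^ 3) ((y : ℝ) ^ 2) / (x ^ 3).gcd (y ^ 2)) ^ δ) t) →
      max (|(x : ℝ)| ^ 3) ((y : ℝ) ^ 2) ≤ C * (N6 x y : ℝ) ^ (6 + ε) := by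
  classical
  set T : Finset ℕ := S ∪ {2, 3} with hT
  have hTp : ∀ p ∈ T, p.Prime := by
    intro p hp
    rw [hT, Finset.mem_union, Finset.mem_insert, Finset.mem_singleton] at hp
    rcases hp with h | rfl | rfl
    · exact hS p h
    · exact Nat.prime_two
    · exact Nat.prime_three
  have hST : S ⊆ T := Finset.subset_union_left
  have h2T : 2 ∈ T := by rw [hT]; simp
  have h3T : 3 ∈ T := by rw [hT]; simp
  obtain ⟨δ, C, hδ, hcore⟩ := core T hTp h2T h3T G l m |B| ε hε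
    (fun ε' hε' => abq T hTp (l + l) m |(|B|)| ε' hε')
  refine ⟨δ, Real.exp C + 6 ^ (3 * G), hδ, by positivity, ?_⟩
  intro x y hn hmin hmin2 hmin3 hsp
  have hN1 : (1 : ℝ) ≤ N6 x y := by exact_mod_cast N6_pos x y
  have hNε : (0 : ℝ) < (N6 x y : ℝ) ^ (6 + ε) := Real.rpow_pos_of_pos (by linarith) _
  have hzero : (x = 0 ∨ y = 0) → max (|(x : ℝ)| ^ 3) ((y : ℝ) ^ 2) ≤
      (Real.exp C + 6 ^ (3 * G)) * (N6 x y : ℝ) ^ (6 + ε) := by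
    intro h
    have h1 := zero_case G x y h hn hmin hmin2 hmin3
    have h2 : (N6 x y : ℝ) ^ 6 ≤ (N6 x y : ℝ) ^ (6 + ε) := by
      rw [← Real.rpow_natCast]
      exact Real.rpow_le_rpow_of_exponent_le hN1 (by push_cast; linarith)
    calc max (|(x : ℝ)| ^ 3) ((y : ℝ) ^ 2) ≤ 6 ^ (3 * G) * (N6 x y : ℝ) ^ 6 := h1
      _ ≤ 6 ^ (3 * G) * (N6 x y : ℝ) ^ (6 + ε) := by gcongr
      _ ≤ (Real.exp C + 6 ^ (3 * G)) * (N6 x y : ℝ) ^ (6 + ε) := by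
          apply mul_le_mul_of_nonneg_right _ hNε.le
          have := Real.exp_pos C
          linarith
  rcases hsp with h | h | ⟨ρ, t, hρ, hloc, ht, s1, s2, s3, s4⟩
  · exact hzero (Or.inl h)
  · exact hzero (Or.inr h)
  by_cases hx : x = 0
  · exact hzero (Or.inl hx)
  by_cases hy : y = 0
  · exact hzero (Or.inr hy)
  have hgpos : 0 < (x ^ 3).gcd (y ^ 2) :=
    Int.gcd_pos_iff.2 (Or.inl (pow_ne_zero _ hx))
  set H : ℝ := max (|(x : ℝ)| ^ 3) ((y : ℝ) ^ 2) / (x ^ 3).gcd (y ^ 2) with hH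
  have hH0 : 0 ≤ H := div_nonneg (le_max_of_le_right (sq_nonneg _)) (Nat.cast_nonneg _)
  have hR : B * H ^ δ ≤ |B| * H ^ δ :=
    mul_le_mul_of_nonneg_right (le_abs_self B) (Real.rpow_nonneg hH0 _)
  have hR' : 0 ≤ |B| * H ^ δ := mul_nonneg (abs_nonneg _) (Real.rpow_nonneg hH0 _)
  have up : ∀ z : ℚ, IsSparse S l (B * H ^ δ) z → IsSparse T l (|B| * H ^ δ) z :=
    fun z hz => sparse_mono hST le_rfl hR hR' hz
  have hlog := hcore x y hx hy hn hmin hmin2 hmin3 ρ t hρ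
    (fun p hp hpT hd => (hloc p hp (fun h => hpT (hST h))).1 (hd.mul_left 6))
    (fun p hp hpT hd => (hloc p hp (fun h => hpT (hST h))).2 (by
      intro h
      rcases (Nat.prime_iff_prime_int.mp hp).dvd_or_dvd h with h6 | h6
      · have h7 : p ∣ 2 * 3 := by exact_mod_cast h6
        rcases (Nat.Prime.dvd_mul hp).1 h7 with h8 | h8
        · rw [(Nat.prime_dvd_prime_iff_eq hp Nat.prime_two).1 h8] at hpT
          exact hpT h2T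
        · rw [(Nat.prime_dvd_prime_iff_eq hp Nat.prime_three).1 h8] at hpT
          exact hpT h3T
      · exact hd h6))
    _ rfl ht _ rfl (up _ s1) (up _ s2) (up _ s3) (up _ s4)
  have hMpos : 0 < max (|(x : ℝ)| ^ 3) ((y : ℝ) ^ 2) := by
    apply lt_max_of_lt_left
    have : (x : ℝ) ≠ 0 := by exact_mod_cast hx
    positivity
  have h6 := Real.exp_le_exp.2 hlog
  rw [Real.exp_log hMpos, Real.exp_add, mul_comm (6 + ε), Real.exp_mul,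
    Real.exp_log (by linarith), mul_comm] at h6
  refine h6.trans ?_
  apply mul_le_mul_of_nonneg_right _ hNε.le
  have : (0 : ℝ) < 6 ^ (3 * G) := by positivity
  linarith

end Pool.Agent.V11288.SZ
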