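import Pool.Agent.V11288.SZ.Fin

/-!
Semistable curves with sparse `c₄`, `c₆` and radical of `Δ`.
-/

set_option autoImplicit false

namespace Pool.Agent.V11288.SZ

theorem semi (S : Finset ℕ) (hS : ∀ p ∈ S, p.Prime) (l m : ℕ) (B ε : ℝ) (hε : 0 < ε) :
    ∃ (δ C : ℝ), 0 < δ ∧ 0 < C ∧ ∀ W : WeierstrassCurve ℤ, W.Δ ≠ 0 → IsCoprime W.c₄ W.Δ →
      ∀ (r : ℕ) (t : ℚ), 0 < r → (∀ p : ℕ, p.Prime → p ∉ S → ¬ p ^ 2 ∣ r ∧
        (p ∣ r → (p : ℤ) ∣ W.Δ)) → (r : ℚ) ^ m = W.Δ * t →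
      IsSparse S l (B * (max (|(W.c₄ : ℝ)| ^ 3) ((W.c₆ : ℝ) ^ 2)) ^ δ) W.c₄ →
      IsSparse S l (B * (max (|(W.c₄ : ℝ)| ^ 3) ((W.c₆ : ℝ) ^ 2)) ^ δ) W.c₆ →
      IsSparse S l (B * (max (|(W.c₄ : ℝ)| ^ 3) ((W.c₆ : ℝ) ^ 2)) ^ δ) r →
      IsSparse S l (B * (max (|(W.c₄ : ℝ)| ^ 3) ((W.c₆ : ℝ) ^ 2)) ^ δ) t →
      max (|(W.c₄ : ℝ)| ^ 3) ((W.c₆ : ℝ) ^ 2) ≤ C * (N6 W.c₄ W.c₆ : ℝ) ^ (6 + ε) := by
  classical
  set T : Finset ℕ := S ∪ {2, 3} with hT
  have hTp : ∀ p ∈ T, p.Prime := by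
    intro p hp
    rw [hT, Finset.mem_union, Finset.mem_insert, Finset.mem_singleton] at hp
    rcases hp with h | rfl | rfl
    · exact hS p h
    · exact Nat.prime_two
    · exact Nat.prime_three
  have hST : S ⊆ T := Finset.subset_union_left
  have h2T : 2 ∈ T := by rw [hT]; simp
  have h3T : 3 ∈ T := by rw [hT]; simp
  set B1 : ℝ := max 1 |B| with hB1
  have hB11 : 1 ≤ B1 := le_max_left _ _
  set n : ℕ := 2 * m + 5 with hn
  set L : ℕ := l ^ n + l ^ 3 + l ^ 2 with hL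
  set B' : ℝ := B1 ^ n * 6 ^ 108 with hB'
  obtain ⟨δ', C, hδ', hC, hfin⟩ := final T hTp 18 L (m + 3) B' ε hε
  set δ1 : ℝ := min δ' 1 with hδ1
  have hδ10 : 0 < δ1 := lt_min hδ' one_pos
  have hnR : (0 : ℝ) < n := by rw [hn]; positivity
  refine ⟨δ1 / n, C, by positivity, hC, ?_⟩
  intro W hΔ hcop r t hr hrad ht s4 s6 sr st
  have hrel : W.c₄ ^ 3 - W.c₆ ^ 2 = 1728 * W.Δ := by
    have := W.c_relation
    linear_combination -this
  have hne : W.c₄ ^ 3 - W.c₆ ^ 2 ≠ 0 := by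
    rw [hrel]
    exact mul_ne_zero (by norm_num) hΔ
  -- coprimality
  have hnot : ∀ p : ℕ, p.Prime → (p : ℤ) ∣ W.c₄ → ¬ (p : ℤ) ∣ W.Δ := by
    intro p hp h1 h2
    have h3 := hcop.isUnit_of_dvd' h1 h2
    exact (Nat.prime_iff_prime_int.mp hp).not_unit h3
  have h1728 : ∀ p : ℕ, p.Prime → 5 ≤ p → ¬ (p : ℤ) ∣ 1728 := by
    intro p hp h5 h
    have h1 : p ∣ 2 ^ 6 * 3 ^ 3 := by
      have : (p : ℤ) ∣ ((2 ^ 6 * 3 ^ 3 : ℕ) : ℤ) := by norm_num; exact h
      exact_mod_cast this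
    rcases (Nat.Prime.dvd_mul hp).1 h1 with h | h
    · have := Nat.le_of_dvd (by norm_num) (hp.dvd_of_dvd_pow h)
      omega
    · have := Nat.le_of_dvd (by norm_num) (hp.dvd_of_dvd_pow h)
      omega
  have hboth : ∀ p : ℕ, p.Prime → 5 ≤ p → (p : ℤ) ∣ W.c₄ → ¬ (p : ℤ) ∣ W.c₆ := by
    intro p hp h5 h1 h2
    have h3 : (p : ℤ) ∣ 1728 * W.Δ := by
      rw [← hrel]
      exact dvd_sub (h1.trans (dvd_pow_self _ (by norm_num)))
        (h2.trans (dvd_pow_self _ (by norm_num)))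
    rcases (Nat.prime_iff_prime_int.mp hp).dvd_or_dvd h3 with h | h
    · exact h1728 p hp h5 h
    · exact hnot p hp h1 h
  have hmin : ∀ p : ℕ, p.Prime → 5 ≤ p → ¬ ((p : ℤ) ^ 4 ∣ W.c₄ ∧ (p : ℤ) ^ 6 ∣ W.c₆) := by
    rintro p hp h5 ⟨h1, h2⟩
    exact hboth p hp h5 ((dvd_pow_self _ (by norm_num)).trans h1)
      ((dvd_pow_self _ (by norm_num)).trans h2)
  have hmin2 : ¬ ((2 : ℤ) ^ 18 ∣ W.c₄ ∧ (2 : ℤ) ^ 18 ∣ W.c₆) := by
    rintro ⟨⟨u, hu⟩, ⟨v, hv⟩⟩
    apply hnot 2 Nat.prime_two (by rw [hu]; push_cast; exact ⟨2 ^ 17 * u, by ring⟩)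
    have h1 : 27 * W.Δ = 2 * (2 ^ 47 * u ^ 3 - 2 ^ 29 * v ^ 2) := by
      rw [hu, hv] at hrel
      have : 64 * (27 * W.Δ) = 64 * (2 * (2 ^ 47 * u ^ 3 - 2 ^ 29 * v ^ 2)) := by
        linear_combination -hrel
      linarith
    have h2 : (2 : ℤ) ∣ 27 * W.Δ := ⟨_, h1⟩
    rcases Int.prime_two.dvd_or_dvd h2 with h | h
    · norm_num at h
    · exact_mod_cast h
  have hmin3 : ¬ ((3 : ℤ) ^ 18 ∣ W.c₄ ∧ (3 : ℤ) ^ 18 ∣ W.c₆) := by
    rintro ⟨⟨u, hu⟩, ⟨v, hv⟩⟩
    apply hnot 3 Nat.prime_three (by rw [hu]; push_cast; exact ⟨3 ^ 17 * u, by ring⟩)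
    have h1 : 64 * W.Δ = 3 * (3 ^ 50 * u ^ 3 - 3 ^ 32 * v ^ 2) := by
      rw [hu, hv] at hrel
      have : 27 * (64 * W.Δ) = 27 * (3 * (3 ^ 50 * u ^ 3 - 3 ^ 32 * v ^ 2)) := by
        linear_combination -hrel
      linarith
    have h2 : (3 : ℤ) ∣ 64 * W.Δ := ⟨_, h1⟩
    rcases Int.prime_three.dvd_or_dvd h2 with h | h
    · norm_num at h
    · exact_mod_cast h
  refine hfin W.c₄ W.c₆ hne hmin hmin2 hmin3 ?_
  by_cases h40 : W.c₄ = 0
  · exact Or.inl h40
  by_cases h60 : W.c₆ = 0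
  · exact Or.inr (Or.inl h60)
  refine Or.inr (Or.inr ?_)
  set x := W.c₄ with hx
  set y := W.c₆ with hy
  set g : ℕ := (x ^ 3).gcd (y ^ 2) with hg
  have hg0 : 0 < g := Int.gcd_pos_iff.2 (Or.inl (pow_ne_zero _ h40))
  have hgQ : (g : ℚ) ≠ 0 := by exact_mod_cast hg0.ne'
  have hX0 : x.natAbs ≠ 0 := by simpa using h40
  have hY0 : y.natAbs ≠ 0 := by simpa using h60
  have hgN : g = Nat.gcd (x.natAbs ^ 3) (y.natAbs ^ 2) := by
    rw [hg, Int.gcd_eq_natAbs, Int.natAbs_pow, Int.natAbs_pow]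
  -- `g` has only the prime factors `2` and `3`
  have hgp : ∀ p : ℕ, p.Prime → p ∣ g → p = 2 ∨ p = 3 := by
    intro p hp hd
    by_contra hc
    push Not at hc
    have h5 : 5 ≤ p := by
      have := hp.two_le
      have h4 : p ≠ 4 := by
        rintro rfl
        exact absurd hp (by norm_num)
      omega
    have hpZ : Prime (p : ℤ) := Nat.prime_iff_prime_int.mp hp
    have h1 : (p : ℤ) ∣ x := by
      apply hpZ.dvd_of_dvd_pow (n := 3)
      exact (Int.natCast_dvd_natCast.2 hd).trans (Int.gcd_dvd_left _ _)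
    have h2 : (p : ℤ) ∣ y := by
      apply hpZ.dvd_of_dvd_pow (n := 2)
      exact (Int.natCast_dvd_natCast.2 hd).trans (Int.gcd_dvd_right _ _)
    exact hboth p hp h5 h1 h2
  have hgu : IsSUnit T (g : ℚ) := sunit_nat hg0.ne' fun p hp hd => by
    rcases hgp p hp hd with rfl | rfl
    · exact h2T
    · exact h3T
  -- `g` is bounded
  have hgle : g ≤ 6 ^ 54 := by
    refine Nat.le_of_dvd (by positivity) ?_
    rw [← Nat.factorization_prime_le_iff_dvd hg0.ne' (by norm_num)]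
    intro p hp
    by_cases h23 : p = 2 ∨ p = 3
    · have h6 : ((6 : ℕ) ^ 54).factorization p = 54 := by
        rw [Nat.factorization_pow, Finsupp.smul_apply, smul_eq_mul]
        have h6 : (6 : ℕ).factorization p = 1 := by
          have : (6 : ℕ) = 2 * 3 := by norm_num
          rw [this, Nat.factorization_mul (by norm_num) (by norm_num), Finsupp.add_apply,
            Nat.prime_two.factorization, Nat.prime_three.factorization]
          rcases h23 with rfl | rfl <;> simp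
        rw [h6]
      rw [h6, hgN, Nat.factorization_gcd (pow_ne_zero _ hX0) (pow_ne_zero _ hY0), Finsupp.inf_apply,
        Nat.factorization_pow, Nat.factorization_pow, Finsupp.smul_apply, Finsupp.smul_apply,
        smul_eq_mul, smul_eq_mul]
      have hXd : ∀ k, (p : ℤ) ^ k ∣ x ↔ k ≤ x.natAbs.factorization p := by
        intro k
        rw [natAbs_pow_dvd, hp.pow_dvd_iff_le_factorization hX0]
      have hYd : ∀ k, (p : ℤ) ^ k ∣ y ↔ k ≤ y.natAbs.factorization p := by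
        intro k
        rw [natAbs_pow_dvd, hp.pow_dvd_iff_le_factorization hY0]
      have hcon : ¬ ((p : ℤ) ^ 18 ∣ x ∧ (p : ℤ) ^ 18 ∣ y) := by
        rcases h23 with rfl | rfl
        · exact_mod_cast hmin2
        · exact_mod_cast hmin3
      rw [hXd, hYd] at hcon
      change min (3 * x.natAbs.factorization p) (2 * y.natAbs.factorization p) ≤ 54
      omega
    · have h1 : g.factorization p = 0 :=
        Nat.factorization_eq_zero_of_not_dvd fun h => h23 (hgp p hp h)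
      rw [h1]
      exact Nat.zero_le _
  -- sizes
  set M : ℝ := max (|(x : ℝ)| ^ 3) ((y : ℝ) ^ 2) with hM
  set H : ℝ := M / g with hH
  have hgR : (0 : ℝ) < g := by exact_mod_cast hg0
  have hgleR : (g : ℝ) ≤ 6 ^ 54 := by exact_mod_cast hgle
  have hH1 : 1 ≤ H := by
    rw [hH, one_le_div hgR]
    have h1 : g ≤ x.natAbs ^ 3 := Nat.le_of_dvd (by positivity) (hgN ▸ Nat.gcd_dvd_left _ _)
    have h2 : (g : ℝ) ≤ |(x : ℝ)| ^ 3 := by
      have h3 : |(x : ℝ)| = ((x.natAbs : ℕ) : ℝ) := by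
        rw [Nat.cast_natAbs, Int.cast_abs]
      rw [h3]
      exact_mod_cast h1
    exact h2.trans (le_max_left _ _)
  have hMH : M ≤ 6 ^ 54 * H := by
    have h1 : M = g * H := by
      rw [hH]
      field_simp
    rw [h1]
    exact mul_le_mul_of_nonneg_right hgleR (by linarith)
  have hM1 : 1 ≤ M := by
    have h1 : M = g * H := by
      rw [hH]
      field_simp
    rw [h1]
    have h2 : (1 : ℝ) ≤ g := by exact_mod_cast hg0
    nlinarith
  set R0 : ℝ := B1 * M ^ (δ1 / n) with hR0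
  have hMp : 1 ≤ M ^ (δ1 / n) := Real.one_le_rpow hM1 (by positivity)
  have hR01 : 1 ≤ R0 := by
    rw [hR0]
    nlinarith
  have hR0n : R0 ^ n ≤ B' * H ^ δ' := by
    rw [hR0, mul_pow, hB']
    have h1 : (M ^ (δ1 / n)) ^ n = M ^ δ1 := by
      rw [← Real.rpow_natCast, ← Real.rpow_mul (by linarith)]
      congr 1
      field_simp
    rw [h1]
    have h2 : M ^ δ1 ≤ 6 ^ 108 * H ^ δ' := by
      calc M ^ δ1 ≤ (6 ^ 54 * H) ^ δ1 := Real.rpow_le_rpow (by linarith) hMH hδ10.le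
        _ = ((6 : ℝ) ^ 54) ^ δ1 * H ^ δ1 := Real.mul_rpow (by positivity) (by linarith)
        _ ≤ 6 ^ 108 * H ^ δ' := by
            refine mul_le_mul ?_ ?_ (Real.rpow_nonneg (by linarith) _) (by positivity)
            · calc ((6 : ℝ) ^ 54) ^ δ1 ≤ ((6 : ℝ) ^ 54) ^ (1 : ℝ) :=
                    Real.rpow_le_rpow_of_exponent_le (by norm_num) (min_le_right _ _)
                _ = 6 ^ 54 := Real.rpow_one _
                _ ≤ 6 ^ 108 := by norm_num
            · exact Real.rpow_le_rpow_of_exponent_le hH1 (min_le_left _ _)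
    calc B1 ^ n * M ^ δ1 ≤ B1 ^ n * (6 ^ 108 * H ^ δ') :=
          mul_le_mul_of_nonneg_left h2 (by positivity)
      _ = B1 ^ n * 6 ^ 108 * H ^ δ' := by ring
  have hRR : B * M ^ (δ1 / n) ≤ R0 := by
    rw [hR0]
    apply mul_le_mul_of_nonneg_right _ (by linarith)
    exact (le_abs_self B).trans (le_max_right _ _)
  have up : ∀ z : ℚ, IsSparse S l (B * M ^ (δ1 / n)) z → IsSparse T l R0 z :=
    fun z hz => sparse_mono hST le_rfl hRR (by linarith) hz
  have u4 := up _ s4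
  have u6 := up _ s6
  have ur := up _ sr
  have ut := up _ st
  have hB'H : 0 ≤ B' * H ^ δ' := le_trans (by positivity) hR0n
  have down : ∀ (k j : ℕ) (z : ℚ), j ≤ n → k ≤ L → IsSparse T k (R0 ^ j) z →
      IsSparse T L (B' * H ^ δ') z := by
    intro k j z hj hk hz
    refine sparse_mono (Finset.Subset.refl T) hk ?_ hB'H hz
    exact (pow_le_pow_right₀ hR01 hj).trans hR0n
  have hpow := fun (z : ℚ) (hz : IsSparse T l R0 z) (k : ℕ) => sparse_pow hTp hR01 hz k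
  -- `ρ`
  have hsx : ∃ σ : ℚ, (σ = 1 ∨ σ = -1) ∧ ((x.natAbs : ℕ) : ℚ) = σ * x := by
    rw [Nat.cast_natAbs]
    rcases le_total 0 x with h | h
    · refine ⟨1, Or.inl rfl, ?_⟩
      rw [abs_of_nonneg h, one_mul]
    · refine ⟨-1, Or.inr rfl, ?_⟩
      rw [abs_of_nonpos h, neg_one_mul]
      push_cast
      ring
  have hsy : ∃ σ : ℚ, (σ = 1 ∨ σ = -1) ∧ ((y.natAbs : ℕ) : ℚ) = σ * y := by
    rw [Nat.cast_natAbs]
    rcases le_total 0 y with h | h
    · refine ⟨1, Or.inl rfl, ?_⟩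
      rw [abs_of_nonneg h, one_mul]
    · refine ⟨-1, Or.inr rfl, ?_⟩
      rw [abs_of_nonpos h, neg_one_mul]
      push_cast
      ring
  obtain ⟨σ, hσ, hσx⟩ := hsx
  obtain ⟨τ, hτ, hτy⟩ := hsy
  have hσu : IsSUnit T σ := by
    rcases hσ with rfl | rfl
    · exact sunit_one T
    · exact sunit_neg (sunit_one T)
  have hτu : IsSUnit T τ := by
    rcases hτ with rfl | rfl
    · exact sunit_one T
    · exact sunit_neg (sunit_one T)
  have h1728u : IsSUnit T (1728 : ℚ) := by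
    have := sunit_nat (S := T) (n := 1728) (by norm_num) (fun p hp hd => by
      have h1 : p ∣ 2 ^ 6 * 3 ^ 3 := by
        have e : (2 ^ 6 * 3 ^ 3 : ℕ) = 1728 := by norm_num
        rw [e]; exact hd
      rcases (Nat.Prime.dvd_mul hp).1 h1 with h | h
      · rw [(Nat.prime_dvd_prime_iff_eq hp Nat.prime_two).1 (hp.dvd_of_dvd_pow h)]
        exact h2T
      · rw [(Nat.prime_dvd_prime_iff_eq hp Nat.prime_three).1 (hp.dvd_of_dvd_pow h)]
        exact h3T)
    exact_mod_cast this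
  have hΔQ : (W.Δ : ℚ) ≠ 0 := by exact_mod_cast hΔ
  have hrelQ : (x : ℚ) ^ 3 - (y : ℚ) ^ 2 = 1728 * W.Δ := by exact_mod_cast hrel
  refine ⟨x.natAbs * y.natAbs * r,
    ((σ * τ) ^ (m + 3) * (g : ℚ) ^ 3 * (1728 : ℚ)⁻¹) *
      ((x : ℚ) ^ m * (y : ℚ) ^ (m + 1) * (r : ℚ) ^ 3 * t), by positivity, ?_, ?_, ?_, ?_, ?_, ?_⟩
  · intro p hp hpT
    have hpS : p ∉ S := fun h => hpT (hST h)
    have hp2 : p ≠ 2 := fun h => hpT (h ▸ h2T)
    have hp3 : p ≠ 3 := fun h => hpT (h ▸ h3T)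
    have h5 : 5 ≤ p := by
      have := hp.two_le
      have h4 : p ≠ 4 := by
        rintro rfl
        exact absurd hp (by norm_num)
      omega
    have hpZ : Prime (p : ℤ) := Nat.prime_iff_prime_int.mp hp
    have hp6 : ¬ (p : ℤ) ∣ 6 := by
      intro h
      exact h1728 p hp h5 (h.trans (by norm_num))
    obtain ⟨hr1, hr2⟩ := hrad p hp hpS
    constructor
    · intro hd
      have hdΔ : (p : ℤ) ∣ W.Δ := by
        rcases hpZ.dvd_or_dvd hd with h | h
        · exact absurd h hp6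
        · rw [hrel] at h
          rcases hpZ.dvd_or_dvd h with h | h
          · exact absurd h (h1728 p hp h5)
          · exact h
      have hpx : ¬ (p : ℤ) ∣ x := fun h => hnot p hp h hdΔ
      have hpy : ¬ (p : ℤ) ∣ y := by
        intro h
        apply hpx
        apply hpZ.dvd_of_dvd_pow (n := 3)
        have h1 : x ^ 3 = 1728 * W.Δ + y ^ 2 := by linear_combination hrel
        rw [h1]
        exact dvd_add (hdΔ.mul_left _) (h.trans (dvd_pow_self _ (by norm_num)))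
      intro h
      apply hr1
      have hcx : Nat.Coprime (p ^ 2) (x.natAbs) := by
        apply Nat.Coprime.pow_left
        exact (Nat.Prime.coprime_iff_not_dvd hp).2 fun h => hpx (Int.natCast_dvd.2 h)
      have hcy : Nat.Coprime (p ^ 2) (y.natAbs) := by
        apply Nat.Coprime.pow_left
        exact (Nat.Prime.coprime_iff_not_dvd hp).2 fun h => hpy (Int.natCast_dvd.2 h)
      exact (Nat.Coprime.mul_right hcx hcy).dvd_of_dvd_mul_left h
    · intro hd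
      have hdΔ : ¬ (p : ℤ) ∣ W.Δ := by
        intro h
        apply hd
        rw [hrel]
        exact (h.mul_left _).mul_left _
      have hr0 : r.factorization p = 0 :=
        Nat.factorization_eq_zero_of_not_dvd fun h => hdΔ (hr2 h)
      rw [Nat.factorization_mul (mul_ne_zero hX0 hY0) hr.ne', Finsupp.add_apply, hr0,
        Int.natAbs_mul]
      exact le_rfl
  · rw [hrelQ]
    push_cast
    rw [hσx, hτy]
    have e1 : (σ * (x : ℚ) * (τ * y) * r) ^ (m + 3) =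
        (σ * τ) ^ (m + 3) * ((x : ℚ) ^ (m + 3) * (y : ℚ) ^ (m + 3) * (r : ℚ) ^ 3 * (r : ℚ) ^ m) := by
      ring
    rw [e1, ht]
    have e2 : (g : ℚ) ^ 3 * ((x : ℚ) ^ 3 / g * ((y : ℚ) ^ 2 / g) * (1728 * (W.Δ : ℚ) / g)) =
        (x : ℚ) ^ 3 * (y : ℚ) ^ 2 * (1728 * W.Δ) := by
      field_simp
    calc (σ * τ) ^ (m + 3) * ((x : ℚ) ^ (m + 3) * (y : ℚ) ^ (m + 3) * (r : ℚ) ^ 3 * (W.Δ * t))
        = (σ * τ) ^ (m + 3) * (1728 : ℚ)⁻¹ * ((x : ℚ) ^ m * (y : ℚ) ^ (m + 1) * (r : ℚ) ^ 3 * t) *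
          ((x : ℚ) ^ 3 * (y : ℚ) ^ 2 * (1728 * W.Δ)) := by ring
      _ = _ := by
          rw [← e2]
          ring
  · have h1 : ((x : ℚ) ^ 3 / g) = (g : ℚ)⁻¹ * (x : ℚ) ^ 3 := by
      rw [div_eq_mul_inv, mul_comm]
    rw [h1]
    exact sparse_unit_mul hTp (sunit_inv hgu) (down _ 3 _ (by omega) (by omega) (hpow _ u4 3))
  · have h1 : ((y : ℚ) ^ 2 / g) = (g : ℚ)⁻¹ * (y : ℚ) ^ 2 := by
      rw [div_eq_mul_inv, mul_comm]
    rw [h1]
    exact sparse_unit_mul hTp (sunit_inv hgu) (down _ 2 _ (by omega) (by omega) (hpow _ u6 2))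
  · have h1 : (((x.natAbs * y.natAbs * r : ℕ)) : ℚ) = (σ * τ) * ((x : ℚ) * y * r) := by
      push_cast
      rw [hσx, hτy]
      ring
    rw [h1]
    refine sparse_unit_mul hTp (sunit_mul hTp hσu hτu) (down (l ^ 3) 3 _ (by omega) (by omega) ?_)
    have h2 := sparse_mul hTp (by positivity) (by linarith)
      (sparse_mul hTp (by linarith) (by linarith) u4 u6) ur
    have e1 : l * l * l = l ^ 3 := by ring
    have e2 : R0 * R0 * R0 = R0 ^ 3 := by ring
    rw [e1, e2] at h2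
    exact h2
  · refine sparse_unit_mul hTp (sunit_mul hTp (sunit_mul hTp (sunit_pow hTp
      (sunit_mul hTp hσu hτu) _) (sunit_pow hTp hgu 3)) (sunit_inv h1728u)) ?_
    refine down (l ^ n) n _ le_rfl (by omega) ?_
    have h2 := sparse_mul hTp (by positivity) (by linarith)
      (sparse_mul hTp (by positivity) (by positivity)
        (sparse_mul hTp (by positivity) (by positivity) (hpow _ u4 m) (hpow _ u6 (m + 1)))
        (hpow _ ur 3)) ut
    have e1 : l ^ m * l ^ (m + 1) * l ^ 3 * l = l ^ n := by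
      rw [hn]; ring
    have e2 : R0 ^ m * R0 ^ (m + 1) * R0 ^ 3 * R0 = R0 ^ n := by
      rw [hn]; ring
    rw [e1, e2] at h2
    exact h2

end Pool.Agent.V11288.SZ
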