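import Mathlib

/-!
Arithmetic of the pairs `(x, y)`, `x ^ 3 - y ^ 2 ≠ 0`: the local inequality and short sums.
-/

set_option autoImplicit false

namespace Pool.Agent.V11288.SZ

/-- the conductor outside `2`, `3` of the pair: `p` if `p ∤ x`, `p ^ 2` if `p ∣ x` -/
def N6 (x y : ℤ) : ℕ :=
  ∏ p ∈ (x ^ 3 - y ^ 2).natAbs.primeFactors.filter (fun p => 5 ≤ p),
    if (p : ℤ) ∣ x then p ^ 2 else p

theorem N6_pos (x y : ℤ) : 0 < N6 x y := by
  unfold N6
  refine Finset.prod_pos fun p hp => ?_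
  have h5 : 5 ≤ p := (Finset.mem_filter.mp hp).2
  split_ifs
  · positivity
  · omega

theorem N6_fac (x y : ℤ) {p : ℕ} (hp : p.Prime) (h5 : 5 ≤ p) (hd : (p : ℤ) ∣ x ^ 3 - y ^ 2)
    (h0 : x ^ 3 - y ^ 2 ≠ 0) :
    (N6 x y).factorization p = if (p : ℤ) ∣ x then 2 else 1 := by
  classical
  unfold N6
  rw [Nat.factorization_prod_apply]
  · rw [Finset.sum_eq_single p]
    · split_ifs
      · rw [hp.factorization_pow]; simp
      · rw [hp.factorization]; simp
    · intro q hq hqp
      have hqq : q.Prime := Nat.prime_of_mem_primeFactors (Finset.mem_filter.mp hq).1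
      have h1 : q.factorization p = 0 := by
        rw [hqq.factorization, Finsupp.single_apply, if_neg hqp]
      split_ifs
      · rw [Nat.factorization_pow, Finsupp.smul_apply, h1, smul_zero]
      · exact h1
    · intro h
      exfalso
      apply h
      rw [Finset.mem_filter, Nat.mem_primeFactors]
      exact ⟨⟨hp, Int.natCast_dvd.mp hd, by simpa using h0⟩, h5⟩
  · intro q hq
    have h5 : 5 ≤ q := (Finset.mem_filter.mp hq).2
    split_ifs
    · positivity
    · omega

/-- the numerical inequality behind the local one -/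
theorem local_num (α β : ℕ) (h1 : 1 ≤ α) (h2 : 1 ≤ β) (h : α ≤ 3 ∨ β ≤ 5) :
    min (3 * α) (2 * β) ≤ α + β + 1 := by omega

theorem fac_le_of_not_dvd {p n k : ℕ} (hp : p.Prime) (hn : n ≠ 0) (h : ¬ p ^ (k + 1) ∣ n) :
    n.factorization p ≤ k := by
  by_contra hc
  exact h ((hp.pow_dvd_iff_le_factorization hn).2 (by omega))

theorem natAbs_pow_dvd {p k : ℕ} {x : ℤ} : ((p : ℤ) ^ k ∣ x) ↔ p ^ k ∣ x.natAbs := by
  rw [← Int.natCast_dvd]
  push_cast
  rfl

/-- The main divisibility. -/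
theorem main_dvd (S : Finset ℕ) (hS : ∀ p ∈ S, p.Prime) (h2S : 2 ∈ S) (h3S : 3 ∈ S) (G : ℕ)
    (x y : ℤ) (hx : x ≠ 0) (hy : y ≠ 0) (hn : x ^ 3 - y ^ 2 ≠ 0)
    (hmin : ∀ p : ℕ, p.Prime → 5 ≤ p → ¬ ((p : ℤ) ^ 4 ∣ x ∧ (p : ℤ) ^ 6 ∣ y))
    (hmin2 : ¬ ((2 : ℤ) ^ G ∣ x ∧ (2 : ℤ) ^ G ∣ y)) (hmin3 : ¬ ((3 : ℤ) ^ G ∣ x ∧ (3 : ℤ) ^ G ∣ y))
    (ρ : ℕ) (hρ : 0 < ρ) (hρS : ∀ p ∈ S, ¬ p ∣ ρ)
    (hbad : ∀ p : ℕ, p.Prime → p ∉ S → (p : ℤ) ∣ x ^ 3 - y ^ 2 → ¬ p ^ 2 ∣ ρ)
    (hgood : ∀ p : ℕ, p.Prime → p ∉ S → ¬ (p : ℤ) ∣ x ^ 3 - y ^ 2 →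
      ρ.factorization p ≤ (x * y).natAbs.factorization p) :
    (x ^ 3).gcd (y ^ 2) * ρ ∣ (∏ p ∈ S, p) ^ (3 * G + 11) * (x.natAbs * y.natAbs * N6 x y) := by
  classical
  set X := x.natAbs with hX
  set Y := y.natAbs with hY
  have hX0 : X ≠ 0 := by simpa [hX] using hx
  have hY0 : Y ≠ 0 := by simpa [hY] using hy
  have hg : (x ^ 3).gcd (y ^ 2) = Nat.gcd (X ^ 3) (Y ^ 2) := by
    rw [Int.gcd_eq_natAbs, Int.natAbs_pow, Int.natAbs_pow]
  rw [hg]
  have hg0 : Nat.gcd (X ^ 3) (Y ^ 2) ≠ 0 := Nat.gcd_ne_zero_left (pow_ne_zero _ hX0)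
  have hN0 : N6 x y ≠ 0 := (N6_pos x y).ne'
  have hP0 : (∏ p ∈ S, p) ≠ 0 := Finset.prod_ne_zero_iff.2 fun p hp => (hS p hp).ne_zero
  have hPf : ∀ p ∈ S, (∏ q ∈ S, q).factorization p = 1 := by
    intro p hp
    rw [Nat.factorization_prod_apply (fun q hq => (hS q hq).ne_zero), Finset.sum_eq_single p]
    · rw [(hS p hp).factorization]; simp
    · intro q hq hqp
      rw [(hS q hq).factorization, Finsupp.single_apply, if_neg hqp]
    · intro h; exact absurd hp h
  rw [← Nat.factorization_prime_le_iff_dvd (mul_ne_zero hg0 hρ.ne')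
    (mul_ne_zero (pow_ne_zero _ hP0) (mul_ne_zero (mul_ne_zero hX0 hY0) hN0))]
  intro p hp
  have e1 : (Nat.gcd (X ^ 3) (Y ^ 2) * ρ).factorization p =
      min (3 * X.factorization p) (2 * Y.factorization p) + ρ.factorization p := by
    rw [Nat.factorization_mul hg0 hρ.ne', Finsupp.add_apply,
      Nat.factorization_gcd (pow_ne_zero _ hX0) (pow_ne_zero _ hY0), Finsupp.inf_apply,
      Nat.factorization_pow, Nat.factorization_pow, Finsupp.smul_apply, Finsupp.smul_apply]
    rfl
  have e2 : ((∏ p ∈ S, p) ^ (3 * G + 11) * (X * Y * N6 x y)).factorization p =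
      (3 * G + 11) * (∏ p ∈ S, p).factorization p +
        (X.factorization p + Y.factorization p + (N6 x y).factorization p) := by
    rw [Nat.factorization_mul (pow_ne_zero _ hP0) (mul_ne_zero (mul_ne_zero hX0 hY0) hN0),
      Finsupp.add_apply, Nat.factorization_pow, Finsupp.smul_apply,
      Nat.factorization_mul (mul_ne_zero hX0 hY0) hN0, Finsupp.add_apply,
      Nat.factorization_mul hX0 hY0, Finsupp.add_apply]
    rfl
  rw [e1, e2]
  set α := X.factorization p with hα
  set β := Y.factorization p with hβ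
  have hXd : ∀ k, (p : ℤ) ^ k ∣ x ↔ k ≤ α := by
    intro k
    rw [natAbs_pow_dvd, hp.pow_dvd_iff_le_factorization hX0]
  have hYd : ∀ k, (p : ℤ) ^ k ∣ y ↔ k ≤ β := by
    intro k
    rw [natAbs_pow_dvd, hp.pow_dvd_iff_le_factorization hY0]
  by_cases hpS : p ∈ S
  · have h0 : ρ.factorization p = 0 := Nat.factorization_eq_zero_of_not_dvd (hρS p hpS)
    rw [h0, hPf p hpS]
    by_cases h5 : 5 ≤ p
    · have h1 := hmin p hp h5
      rw [hXd, hYd] at h1
      omega
    · have h23 : p = 2 ∨ p = 3 := by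
        have := hp.two_le
        have h4 : p ≠ 4 := by
          rintro rfl
          exact absurd hp (by norm_num)
        omega
      rcases h23 with h | h
      · have h1 := hmin2
        have hX2 := hXd G
        have hY2 := hYd G
        rw [h] at hX2 hY2
        push_cast at hX2 hY2
        rw [hX2, hY2] at h1
        omega
      · have h1 := hmin3
        have hX2 := hXd G
        have hY2 := hYd G
        rw [h] at hX2 hY2
        push_cast at hX2 hY2
        rw [hX2, hY2] at h1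
        omega
  · have h5 : 5 ≤ p := by
      have := hp.two_le
      have h2 : p ≠ 2 := fun h => hpS (h ▸ h2S)
      have h3 : p ≠ 3 := fun h => hpS (h ▸ h3S)
      have h4 : p ≠ 4 := by
        rintro rfl
        exact absurd hp (by norm_num)
      omega
    by_cases hd : (p : ℤ) ∣ x ^ 3 - y ^ 2
    · have hr : ρ.factorization p ≤ 1 := fac_le_of_not_dvd hp hρ.ne' (hbad p hp hpS hd)
      have hNf := N6_fac x y hp h5 hd hn
      have hpZ : Prime (p : ℤ) := Nat.prime_iff_prime_int.mp hp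
      by_cases hpx : (p : ℤ) ∣ x
      · have hpy : (p : ℤ) ∣ y := by
          have h1 : (p : ℤ) ∣ y ^ 2 := by
            have h2 : (p : ℤ) ∣ x ^ 3 := hpx.trans (dvd_pow_self x (by norm_num))
            have := dvd_sub h2 hd
            simpa using this
          exact hpZ.dvd_of_dvd_pow h1
        rw [if_pos hpx] at hNf
        have ha : 1 ≤ α := (hXd 1).1 (by simpa using hpx)
        have hb : 1 ≤ β := (hYd 1).1 (by simpa using hpy)
        have h1 := hmin p hp h5
        rw [hXd, hYd] at h1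
        have := local_num α β ha hb (by omega)
        omega
      · rw [if_neg hpx] at hNf
        have ha : α = 0 := by
          by_contra h
          exact hpx (by simpa using (hXd 1).2 (by omega))
        rw [ha]
        omega
    · have h1 := hgood p hp hpS hd
      have h2 : (x * y).natAbs.factorization p = α + β := by
        rw [Int.natAbs_mul, Nat.factorization_mul hX0 hY0, Finsupp.add_apply]
      rw [h2] at h1
      have h3 : min (3 * α) (2 * β) = 0 := by
        by_contra h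
        have ha : 1 ≤ α := by omega
        have hb : 1 ≤ β := by omega
        apply hd
        have k1 : (p : ℤ) ∣ x := by simpa using (hXd 1).2 ha
        have k2 : (p : ℤ) ∣ y := by simpa using (hYd 1).2 hb
        exact dvd_sub (k1.trans (dvd_pow_self x (by norm_num)))
          (k2.trans (dvd_pow_self y (by norm_num)))
      omega

end Pool.Agent.V11288.SZ
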