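import Mathlib

/-!
Short sums of `S`-units.
-/

set_option autoImplicit false

namespace Pool.Agent.V11288.SZ

/-- `u` is an `S`-unit -/
def IsSUnit (S : Finset ℕ) (u : ℚ) : Prop :=
  ∃ (σ : ℤ) (e : ℕ → ℤ), (σ = 1 ∨ σ = -1) ∧ u = σ * ∏ p ∈ S, (p : ℚ) ^ e p

/-- `z` is a sum of `l` `S`-units with integer coefficients of absolute value at most `R` -/
def IsSparse (S : Finset ℕ) (l : ℕ) (R : ℝ) (z : ℚ) : Prop :=
  ∃ (u : Fin l → ℚ) (k : Fin l → ℤ), (∀ j, IsSUnit S (u j)) ∧ (∀ j, |(k j : ℝ)| ≤ R) ∧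
    z = ∑ j, u j * k j

theorem sunit_one (S : Finset ℕ) : IsSUnit S 1 :=
  ⟨1, fun _ => 0, Or.inl rfl, by simp⟩

theorem sunit_mul {S : Finset ℕ} (hS : ∀ p ∈ S, p.Prime) {u v : ℚ} (hu : IsSUnit S u)
    (hv : IsSUnit S v) : IsSUnit S (u * v) := by
  obtain ⟨σ, e, hσ, rfl⟩ := hu
  obtain ⟨τ, f, hτ, rfl⟩ := hv
  refine ⟨σ * τ, fun p => e p + f p, ?_, ?_⟩
  · rcases hσ with rfl | rfl <;> rcases hτ with rfl | rfl <;> simp
  · have h : ∏ p ∈ S, (p : ℚ) ^ (e p + f p) =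
        (∏ p ∈ S, (p : ℚ) ^ e p) * ∏ p ∈ S, (p : ℚ) ^ f p := by
      rw [← Finset.prod_mul_distrib]
      refine Finset.prod_congr rfl fun p hp => ?_
      exact zpow_add₀ (by exact_mod_cast (hS p hp).ne_zero) _ _
    rw [h]
    push_cast
    ring

theorem sunit_inv {S : Finset ℕ} {u : ℚ} (hu : IsSUnit S u) : IsSUnit S u⁻¹ := by
  obtain ⟨σ, e, hσ, rfl⟩ := hu
  refine ⟨σ, fun p => - e p, hσ, ?_⟩
  rw [mul_inv, ← Finset.prod_inv_distrib]
  congr 1
  · rcases hσ with rfl | rfl <;> norm_num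
  · refine Finset.prod_congr rfl fun p _ => ?_
    rw [zpow_neg]

theorem sunit_neg {S : Finset ℕ} {u : ℚ} (hu : IsSUnit S u) : IsSUnit S (-u) := by
  obtain ⟨σ, e, hσ, rfl⟩ := hu
  refine ⟨-σ, e, ?_, ?_⟩
  · rcases hσ with rfl | rfl <;> simp
  · push_cast; ring

theorem sunit_pow {S : Finset ℕ} (hS : ∀ p ∈ S, p.Prime) {u : ℚ} (hu : IsSUnit S u) (n : ℕ) :
    IsSUnit S (u ^ n) := by
  induction n with
  | zero => simpa using sunit_one S
  | succ n ih =>
    rw [pow_succ]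
    exact sunit_mul hS ih hu

theorem sunit_mono {S T : Finset ℕ} (h : S ⊆ T) {u : ℚ} (hu : IsSUnit S u) : IsSUnit T u := by
  classical
  obtain ⟨σ, e, hσ, rfl⟩ := hu
  refine ⟨σ, fun p => if p ∈ S then e p else 0, hσ, ?_⟩
  congr 1
  rw [← Finset.prod_subset h]
  · refine Finset.prod_congr rfl fun p hp => ?_
    simp only [if_pos hp]
  · intro p _ hp
    simp only [if_neg hp, zpow_zero]

theorem sunit_nat {S : Finset ℕ} {n : ℕ} (hn : n ≠ 0)
    (h : ∀ p : ℕ, p.Prime → p ∣ n → p ∈ S) : IsSUnit S (n : ℚ) := by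
  refine ⟨1, fun p => n.factorization p, Or.inl rfl, ?_⟩
  rw [Int.cast_one, one_mul]
  have h1 : n = ∏ p ∈ S, p ^ n.factorization p := by
    conv_lhs => rw [← Nat.prod_factorization_pow_eq_self hn]
    rw [Finsupp.prod]
    refine Finset.prod_subset ?_ ?_
    · intro p hp
      rw [Nat.support_factorization, Nat.mem_primeFactors] at hp
      exact h p hp.1 hp.2.1
    · intro p _ hp
      rw [Finsupp.notMem_support_iff] at hp
      rw [hp, pow_zero]
  conv_lhs => rw [h1]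
  push_cast
  refine Finset.prod_congr rfl fun p _ => ?_
  rw [zpow_natCast]

/-- sums over a type with at most `l` elements -/
theorem sparse_of {S : Finset ℕ} {l : ℕ} {R : ℝ} (hR : 0 ≤ R) {z : ℚ} {ι : Type} [Fintype ι]
    (hc : Fintype.card ι ≤ l) (u : ι → ℚ) (k : ι → ℤ) (hu : ∀ j, IsSUnit S (u j))
    (hk : ∀ j, |(k j : ℝ)| ≤ R) (hz : z = ∑ j, u j * k j) : IsSparse S l R z := by
  classical
  obtain ⟨f⟩ : Nonempty (ι ↪ Fin l) := by
    apply Function.Embedding.nonempty_of_card_le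
    rwa [Fintype.card_fin]
  have hex : ∀ j : Fin l, (∃ i, f i = j) ∨ ¬ ∃ i, f i = j := fun j => em _
  refine ⟨fun j => if h : ∃ i, f i = j then u h.choose else 1,
    fun j => if h : ∃ i, f i = j then k h.choose else 0, ?_, ?_, ?_⟩
  · intro j
    by_cases h : ∃ i, f i = j
    · simp only [dif_pos h]; exact hu _
    · simp only [dif_neg h]; exact sunit_one S
  · intro j
    by_cases h : ∃ i, f i = j
    · simp only [dif_pos h]; exact hk _
    · simp only [dif_neg h]; simpa using hR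
  · rw [hz]
    have h1 : ∑ j ∈ (Finset.univ : Finset ι).map f,
        ((if h : ∃ i, f i = j then u h.choose else 1) *
          ((if h : ∃ i, f i = j then k h.choose else 0 : ℤ) : ℚ)) = ∑ j, u j * (k j : ℚ) := by
      rw [Finset.sum_map]
      refine Finset.sum_congr rfl fun i _ => ?_
      have h : ∃ i', f i' = f i := ⟨i, rfl⟩
      rw [dif_pos h, dif_pos h]
      have h2 : h.choose = i := f.injective h.choose_spec
      rw [h2]
    rw [← h1]
    refine Finset.sum_subset (Finset.subset_univ _) ?_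
    intro j _ hj
    have h : ¬ ∃ i, f i = j := by
      rintro ⟨i, rfl⟩
      exact hj (Finset.mem_map_of_mem f (Finset.mem_univ i))
    rw [dif_neg h, dif_neg h]
    simp

theorem sparse_mono {S T : Finset ℕ} (hST : S ⊆ T) {l l' : ℕ} (hl : l ≤ l') {R R' : ℝ}
    (hR : R ≤ R') (hR' : 0 ≤ R') {z : ℚ} (h : IsSparse S l R z) : IsSparse T l' R' z := by
  obtain ⟨u, k, hu, hk, hz⟩ := h
  exact sparse_of hR' (by rwa [Fintype.card_fin]) u k (fun j => sunit_mono hST (hu j))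
    (fun j => (hk j).trans hR) hz

theorem sparse_neg {S : Finset ℕ} {l : ℕ} {R : ℝ} {z : ℚ} (h : IsSparse S l R z) :
    IsSparse S l R (-z) := by
  obtain ⟨u, k, hu, hk, hz⟩ := h
  refine ⟨fun j => - u j, k, fun j => sunit_neg (hu j), hk, ?_⟩
  rw [hz, ← Finset.sum_neg_distrib]
  exact Finset.sum_congr rfl fun j _ => by ring

theorem sparse_unit_mul {S : Finset ℕ} (hS : ∀ p ∈ S, p.Prime) {l : ℕ} {R : ℝ} {z v : ℚ}
    (hv : IsSUnit S v) (h : IsSparse S l R z) : IsSparse S l R (v * z) := by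
  obtain ⟨u, k, hu, hk, hz⟩ := h
  refine ⟨fun j => v * u j, k, fun j => sunit_mul hS hv (hu j), hk, ?_⟩
  rw [hz, Finset.mul_sum]
  exact Finset.sum_congr rfl fun j _ => by ring

theorem sparse_add {S : Finset ℕ} {l l' : ℕ} {R : ℝ} (hR : 0 ≤ R) {z z' : ℚ}
    (h : IsSparse S l R z) (h' : IsSparse S l' R z') : IsSparse S (l + l') R (z + z') := by
  obtain ⟨u, k, hu, hk, hz⟩ := h
  obtain ⟨u', k', hu', hk', hz'⟩ := h'
  refine sparse_of (ι := Fin l ⊕ Fin l') hR (by simp) (Sum.elim u u') (Sum.elim k k') ?_ ?_ ?_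
  · rintro (j | j)
    · exact hu j
    · exact hu' j
  · rintro (j | j)
    · exact hk j
    · exact hk' j
  · rw [Fintype.sum_sum_type, hz, hz']
    rfl

theorem sparse_mul {S : Finset ℕ} (hS : ∀ p ∈ S, p.Prime) {l l' : ℕ} {R R' : ℝ}
    (hR : 0 ≤ R) (hR' : 0 ≤ R') {z z' : ℚ}
    (h : IsSparse S l R z) (h' : IsSparse S l' R' z') :
    IsSparse S (l * l') (R * R') (z * z') := by
  obtain ⟨u, k, hu, hk, hz⟩ := h
  obtain ⟨u', k', hu', hk', hz'⟩ := h'
  refine sparse_of (ι := Fin l × Fin l') (mul_nonneg hR hR') (by simp)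
    (fun i => u i.1 * u' i.2) (fun i => k i.1 * k' i.2)
    (fun i => sunit_mul hS (hu _) (hu' _)) (fun i => ?_) ?_
  · push_cast
    rw [abs_mul]
    exact mul_le_mul (hk _) (hk' _) (abs_nonneg _) hR
  · rw [hz, hz', Finset.sum_mul_sum, Fintype.sum_prod_type]
    refine Finset.sum_congr rfl fun i _ => Finset.sum_congr rfl fun j _ => ?_
    push_cast
    ring

theorem sparse_one (S : Finset ℕ) {R : ℝ} (hR : 1 ≤ R) : IsSparse S 1 R 1 :=
  ⟨fun _ => 1, fun _ => 1, fun _ => sunit_one S, fun _ => by simpa using hR, by simp⟩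

theorem sparse_pow {S : Finset ℕ} (hS : ∀ p ∈ S, p.Prime) {l : ℕ} {R : ℝ} (hR : 1 ≤ R) {z : ℚ}
    (h : IsSparse S l R z) (n : ℕ) : IsSparse S (l ^ n) (R ^ n) (z ^ n) := by
  induction n with
  | zero => simpa using sparse_one S le_rfl
  | succ n ih =>
    rw [pow_succ, pow_succ, pow_succ]
    exact sparse_mul hS (by positivity) (by linarith) ih h

end Pool.Agent.V11288.SZ
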