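import Pool.Agent.V11288.SZ.Arith
import Pool.Agent.V11288.SZ.Short

/-!
From the abc inequality for sparse triples to Szpiro's inequality.
-/

set_option autoImplicit false

namespace Pool.Agent.V11288.SZ

/-- the abc inequality for the sparse triples -/
def ABQ (S : Finset ℕ) (l m : ℕ) (B ε : ℝ) : Prop :=
  ∃ (δ C : ℝ), 0 < δ ∧ ∀ (a b c : ℕ), 0 < a → 0 < b → a.Coprime b → a + b = c →
    ∀ (ρ : ℕ) (t : ℚ), 0 < ρ → (ρ : ℚ) ^ m = a * b * c * t →
    IsSparse S l (B * (c : ℝ) ^ δ) a → IsSparse S l (B * (c : ℝ) ^ δ) b →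
    IsSparse S l (B * (c : ℝ) ^ δ) ρ → IsSparse S l (B * (c : ℝ) ^ δ) t →
    Real.log c ≤ (1 + ε) * Real.log ρ + C

theorem three {S : Finset ℕ} {l m : ℕ} {B ε : ℝ} (hA : ABQ S (l + l) m |B| ε) :
    ∃ (δ C : ℝ), 0 < δ ∧ ∀ (a b c : ℕ), 0 < a → 0 < b → 0 < c → a.Coprime b →
      (a + b = c ∨ a + c = b ∨ b + c = a) → ∀ (ρ : ℕ) (t : ℚ), 0 < ρ →
      (ρ : ℚ) ^ m = a * b * c * t →
      IsSparse S l (B * (max (a : ℝ) b) ^ δ) a → IsSparse S l (B * (max (a : ℝ) b) ^ δ) b →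
      IsSparse S l (B * (max (a : ℝ) b) ^ δ) ρ → IsSparse S l (B * (max (a : ℝ) b) ^ δ) t →
      Real.log (max (a : ℝ) b) ≤ (1 + ε) * Real.log ρ + C := by
  obtain ⟨δ, C, hδ, h⟩ := hA
  refine ⟨δ, C, hδ, ?_⟩
  intro a b c ha hb hc hab hsum ρ t hρ ht h1 h2 h3 h4
  have haR : (1 : ℝ) ≤ a := by exact_mod_cast ha
  have hbR : (1 : ℝ) ≤ b := by exact_mod_cast hb
  have hmax : (1 : ℝ) ≤ max (a : ℝ) b := le_max_of_le_left haR
  have key : ∀ M : ℝ, max (a : ℝ) b ≤ M → B * (max (a : ℝ) b) ^ δ ≤ |B| * M ^ δ ∧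
      0 ≤ |B| * M ^ δ := by
    intro M hM
    have h5 : (max (a : ℝ) b) ^ δ ≤ M ^ δ := Real.rpow_le_rpow (by linarith) hM hδ.le
    have h6 : 0 ≤ (max (a : ℝ) b) ^ δ := Real.rpow_nonneg (by linarith) _
    refine ⟨?_, mul_nonneg (abs_nonneg _) (h6.trans h5)⟩
    calc B * (max (a : ℝ) b) ^ δ ≤ |B| * (max (a : ℝ) b) ^ δ :=
          mul_le_mul_of_nonneg_right (le_abs_self B) h6
      _ ≤ |B| * M ^ δ := mul_le_mul_of_nonneg_left h5 (abs_nonneg _)
  have hll : l ≤ l + l := by omega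
  have up : ∀ (M : ℝ), max (a : ℝ) b ≤ M → ∀ z : ℚ,
      IsSparse S l (B * (max (a : ℝ) b) ^ δ) z → IsSparse S (l + l) (|B| * M ^ δ) z :=
    fun M hM z hz => sparse_mono (Finset.Subset.refl S) hll (key M hM).1 (key M hM).2 hz
  have up2 : ∀ (M : ℝ), max (a : ℝ) b ≤ M → ∀ z z' : ℚ,
      IsSparse S l (B * (max (a : ℝ) b) ^ δ) z → IsSparse S l (B * (max (a : ℝ) b) ^ δ) z' →
      IsSparse S (l + l) (|B| * M ^ δ) (z + -z') :=
    fun M hM z z' hz hz' => sparse_add (key M hM).2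
      (sparse_mono (Finset.Subset.refl S) le_rfl (key M hM).1 (key M hM).2 hz)
      (sparse_neg (sparse_mono (Finset.Subset.refl S) le_rfl (key M hM).1 (key M hM).2 hz'))
  rcases hsum with hs | hs | hs
  · have hM : max (a : ℝ) b ≤ c := by
      have : (a : ℝ) + b = c := by exact_mod_cast hs
      exact max_le (by linarith) (by linarith)
    have h5 := h a b c ha hb hab hs ρ t hρ ht (up _ hM _ h1) (up _ hM _ h2) (up _ hM _ h3)
      (up _ hM _ h4)
    exact (Real.log_le_log (by linarith) hM).trans h5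
  · have hbe : (a : ℝ) + c = b := by exact_mod_cast hs
    have hcR : (1 : ℝ) ≤ c := by exact_mod_cast hc
    have hmaxe : max (a : ℝ) b = b := max_eq_right (by linarith)
    have hM : max (a : ℝ) b ≤ b := hmaxe.le
    have hce : (c : ℚ) = b + -a := by
      have : (a : ℚ) + c = b := by exact_mod_cast hs
      linarith
    have hcop : a.Coprime c := by
      rw [← hs] at hab
      exact (Nat.coprime_add_self_right (m := a) (n := c)).1 (by rwa [add_comm] at hab)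
    have h5 := h a c b ha hc hcop hs ρ t hρ (by rw [ht]; ring) (up _ hM _ h1)
      (by rw [hce]; exact up2 _ hM _ _ h2 h1) (up _ hM _ h3) (up _ hM _ h4)
    rw [hmaxe]
    exact h5
  · have hae : (b : ℝ) + c = a := by exact_mod_cast hs
    have hcR : (1 : ℝ) ≤ c := by exact_mod_cast hc
    have hmaxe : max (a : ℝ) b = a := max_eq_left (by linarith)
    have hM : max (a : ℝ) b ≤ a := hmaxe.le
    have hce : (c : ℚ) = a + -b := by
      have : (b : ℚ) + c = a := by exact_mod_cast hs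
      linarith
    have hcop : b.Coprime c := by
      rw [← hs] at hab
      exact (Nat.coprime_add_self_right (m := b) (n := c)).1 (by
        have := hab.symm
        rwa [add_comm] at this)
    have h5 := h b c a hb hc hcop hs ρ t hρ (by rw [ht]; ring) (up _ hM _ h2)
      (by rw [hce]; exact up2 _ hM _ _ h1 h2) (up _ hM _ h3) (up _ hM _ h4)
    rw [hmaxe]
    exact h5

/-- splitting off the `S`-part -/
theorem split_S (S : Finset ℕ) {n : ℕ} (hn : n ≠ 0) :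
    ∃ s r : ℕ, n = s * r ∧ s ≠ 0 ∧ r ≠ 0 ∧ (∀ p : ℕ, p.Prime → p ∣ s → p ∈ S) ∧
      ∀ p ∈ S, p.Prime → ¬ p ∣ r := by
  classical
  have h1 : n = (∏ p ∈ n.primeFactors.filter (· ∈ S), p ^ n.factorization p) *
      ∏ p ∈ n.primeFactors.filter (· ∉ S), p ^ n.factorization p := by
    rw [Finset.prod_filter_mul_prod_filter_not]
    conv_lhs => rw [← Nat.prod_factorization_pow_eq_self hn]
    rw [Finsupp.prod, Nat.support_factorization]
  refine ⟨_, _, h1, left_ne_zero_of_mul (h1 ▸ hn), right_ne_zero_of_mul (h1 ▸ hn), ?_, ?_⟩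
  · intro p hp hd
    rw [hp.prime.dvd_finsetProd_iff] at hd
    obtain ⟨q, hq, hpq⟩ := hd
    rw [Finset.mem_filter] at hq
    have hqp := Nat.prime_of_mem_primeFactors hq.1
    rw [(Nat.prime_dvd_prime_iff_eq hp hqp).1 (hp.dvd_of_dvd_pow hpq)]
    exact hq.2
  · intro p hpS hp hd
    rw [hp.prime.dvd_finsetProd_iff] at hd
    obtain ⟨q, hq, hpq⟩ := hd
    rw [Finset.mem_filter] at hq
    have hqp := Nat.prime_of_mem_primeFactors hq.1
    rw [← (Nat.prime_dvd_prime_iff_eq hp hqp).1 (hp.dvd_of_dvd_pow hpq)] at hq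
    exact hq.2 hpS

/-- Szpiro's inequality for the sparse pairs, `2`, `3` in `S` -/
theorem core (S : Finset ℕ) (hS : ∀ p ∈ S, p.Prime) (h2S : 2 ∈ S) (h3S : 3 ∈ S) (G l m : ℕ)
    (B ε : ℝ) (hε : 0 < ε) (hA : ∀ ε' : ℝ, 0 < ε' → ABQ S (l + l) m |B| ε') :
    ∃ (δ C : ℝ), 0 < δ ∧ ∀ (x y : ℤ), x ≠ 0 → y ≠ 0 → x ^ 3 - y ^ 2 ≠ 0 →
      (∀ p : ℕ, p.Prime → 5 ≤ p → ¬ ((p : ℤ) ^ 4 ∣ x ∧ (p : ℤ) ^ 6 ∣ y)) →
      ¬ ((2 : ℤ) ^ G ∣ x ∧ (2 : ℤ) ^ G ∣ y) → ¬ ((3 : ℤ) ^ G ∣ x ∧ (3 : ℤ) ^ G ∣ y) →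
      ∀ (ρ : ℕ) (t : ℚ), 0 < ρ →
      (∀ p : ℕ, p.Prime → p ∉ S → (p : ℤ) ∣ x ^ 3 - y ^ 2 → ¬ p ^ 2 ∣ ρ) →
      (∀ p : ℕ, p.Prime → p ∉ S → ¬ (p : ℤ) ∣ x ^ 3 - y ^ 2 →
        ρ.factorization p ≤ (x * y).natAbs.factorization p) →
      ∀ g : ℕ, g = (x ^ 3).gcd (y ^ 2) →
      (ρ : ℚ) ^ m = (x ^ 3 / g) * (y ^ 2 / g) * ((x ^ 3 - y ^ 2) / g) * t →
      ∀ R : ℝ, R = B * (max (|(x : ℝ)| ^ 3) ((y : ℝ) ^ 2) / g) ^ δ →
      IsSparse S l R (x ^ 3 / g) → IsSparse S l R (y ^ 2 / g) →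
      IsSparse S l R ρ → IsSparse S l R t →
      Real.log (max (|(x : ℝ)| ^ 3) ((y : ℝ) ^ 2)) ≤ (6 + ε) * Real.log (N6 x y) + C := by
  classical
  set ε1 : ℝ := ε / (36 + 5 * ε) with hε1
  have hε10 : 0 < ε1 := by positivity
  have hq0 : 0 < 1 / 6 - 5 / 6 * ε1 := by
    have : ε1 < 1 / 5 := by
      rw [hε1, div_lt_div_iff₀ (by positivity) (by norm_num)]
      linarith
    linarith
  have hqe : 1 + ε1 = (6 + ε) * (1 / 6 - 5 / 6 * ε1) := by
    rw [hε1]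
    field_simp
    ring
  obtain ⟨δ, C, hδ, hmain⟩ := three (hA ε1 hε10)
  set P : ℕ := ∏ p ∈ S, p with hP
  have hP0 : 0 < P := Finset.prod_pos fun p hp => (hS p hp).pos
  set LP : ℝ := ((3 * G + 11 : ℕ) : ℝ) * Real.log P with hLP
  have hLP0 : 0 ≤ LP := mul_nonneg (Nat.cast_nonneg _) (Real.log_natCast_nonneg _)
  refine ⟨δ, ((1 + ε1) * LP + |C|) / (1 / 6 - 5 / 6 * ε1), hδ, ?_⟩
  intro x y hx hy hn hmin hmin2 hmin3 ρ t hρ hbad hgood g hg ht R hR s1 s2 s3 s4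
  -- splitting `ρ`
  obtain ⟨s, ρ', hsr, hs0, hρ0, hsS, hρS⟩ := split_S S hρ.ne'
  have hsu : IsSUnit S (s : ℚ) := sunit_nat hs0 hsS
  have hsq : (s : ℚ) ≠ 0 := by exact_mod_cast hs0
  have hdvd := main_dvd S hS h2S h3S G x y hx hy hn hmin hmin2 hmin3 ρ' (Nat.pos_of_ne_zero hρ0)
    (fun p hp => hρS p hp (hS p hp))
    (fun p hp hpS hd h => hbad p hp hpS hd (by rw [hsr]; exact h.mul_left s))
    (fun p hp hpS hd => by
      have h1 := hgood p hp hpS hd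
      rw [hsr, Nat.factorization_mul hs0 hρ0, Finsupp.add_apply] at h1
      omega)
  set X := x.natAbs with hX
  set Y := y.natAbs with hY
  have hX0 : X ≠ 0 := by simpa [hX] using hx
  have hY0 : Y ≠ 0 := by simpa [hY] using hy
  have hgN : g = Nat.gcd (X ^ 3) (Y ^ 2) := by
    rw [hg, Int.gcd_eq_natAbs, Int.natAbs_pow, Int.natAbs_pow]
  have hg0 : 0 < g := by
    rw [hgN]
    exact Nat.gcd_pos_of_pos_left _ (by positivity)
  have hgR : (0 : ℝ) < g := by exact_mod_cast hg0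
  have hgQ : (g : ℚ) ≠ 0 := by exact_mod_cast hg0.ne'
  obtain ⟨a, ha⟩ : g ∣ X ^ 3 := hgN ▸ Nat.gcd_dvd_left _ _
  obtain ⟨b, hb⟩ : g ∣ Y ^ 2 := hgN ▸ Nat.gcd_dvd_right _ _
  have hcop : a.Coprime b := by
    have h1 := Nat.coprime_div_gcd_div_gcd (m := X ^ 3) (n := Y ^ 2) (hgN ▸ hg0)
    rw [← hgN, ha, hb, Nat.mul_div_cancel_left _ hg0, Nat.mul_div_cancel_left _ hg0] at h1
    exact h1
  have ha0 : 0 < a := by
    rcases Nat.eq_zero_or_pos a with h | h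
    · rw [h, mul_zero] at ha
      exact absurd ha (pow_ne_zero _ hX0)
    · exact h
  have hb0 : 0 < b := by
    rcases Nat.eq_zero_or_pos b with h | h
    · rw [h, mul_zero] at hb
      exact absurd hb (pow_ne_zero _ hY0)
    · exact h
  -- signs
  obtain ⟨σ, hσ, hxσ⟩ : ∃ σ : ℤ, (σ = 1 ∨ σ = -1) ∧ x = σ * X := by
    rcases Int.natAbs_eq x with h | h
    · exact ⟨1, Or.inl rfl, by rw [one_mul]; exact h⟩
    · exact ⟨-1, Or.inr rfl, by rw [neg_one_mul]; exact h⟩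
  have hy2 : y ^ 2 = (Y : ℤ) ^ 2 := by
    rw [hY, Int.natAbs_sq]
  have hx3 : x ^ 3 = σ * (X : ℤ) ^ 3 := by
    rw [hxσ]
    rcases hσ with h | h <;> rw [h] <;> ring
  have haZ : (X : ℤ) ^ 3 = g * a := by exact_mod_cast ha
  have hbZ : (Y : ℤ) ^ 2 = g * b := by exact_mod_cast hb
  -- the third number
  obtain ⟨τ, c, hτ, hc, hcs⟩ : ∃ (τ : ℤ) (c : ℕ), (τ = 1 ∨ τ = -1) ∧
      x ^ 3 - y ^ 2 = τ * (g * c) ∧ (a + b = c ∨ a + c = b ∨ b + c = a) := by
    rcases hσ with h | h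
    · rcases le_total b a with hab | hab
      · refine ⟨1, a - b, Or.inl rfl, ?_, Or.inr (Or.inr (by omega))⟩
        rw [hx3, hy2, haZ, hbZ, h]
        push_cast [hab]
        ring
      · refine ⟨-1, b - a, Or.inr rfl, ?_, Or.inr (Or.inl (by omega))⟩
        rw [hx3, hy2, haZ, hbZ, h]
        push_cast [hab]
        ring
    · refine ⟨-1, a + b, Or.inr rfl, ?_, Or.inl rfl⟩
      rw [hx3, hy2, haZ, hbZ, h]
      push_cast
      ring
  have hc0 : 0 < c := by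
    rcases Nat.eq_zero_or_pos c with h | h
    · rw [h, Nat.cast_zero, mul_zero, mul_zero] at hc
      exact absurd hc hn
    · exact h
  -- the quotients
  have q1 : ((x : ℚ) ^ 3 / g) = σ * a := by
    have h1 : (x : ℚ) ^ 3 = σ * (g * a) := by
      have : x ^ 3 = σ * (g * a) := by rw [hx3, haZ]
      exact_mod_cast this
    rw [h1]
    field_simp
  have q2 : ((y : ℚ) ^ 2 / g) = b := by
    have h1 : (y : ℚ) ^ 2 = g * b := by
      have : y ^ 2 = g * b := by rw [hy2, hbZ]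
      exact_mod_cast this
    rw [h1]
    field_simp
  have q3 : (((x : ℚ) ^ 3 - (y : ℚ) ^ 2) / g) = τ * c := by
    have h1 : (x : ℚ) ^ 3 - (y : ℚ) ^ 2 = τ * (g * c) := by exact_mod_cast hc
    rw [h1]
    field_simp
  have hmaxe : max (|(x : ℝ)| ^ 3) ((y : ℝ) ^ 2) = g * max (a : ℝ) b := by
    have h1 : |(x : ℝ)| ^ 3 = g * a := by
      have h2 : |(x : ℝ)| = (X : ℝ) := by
        rw [hX, Nat.cast_natAbs, Int.cast_abs]
      rw [h2]
      exact_mod_cast ha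
    have h2 : (y : ℝ) ^ 2 = g * b := by
      have h3 : (y : ℝ) ^ 2 = (Y : ℝ) ^ 2 := by exact_mod_cast hy2
      rw [h3]
      exact_mod_cast hb
    rw [h1, h2, mul_max_of_nonneg _ _ hgR.le]
  have hRe : R = B * (max (a : ℝ) b) ^ δ := by
    rw [hR, hmaxe, mul_div_cancel_left₀ _ hgR.ne']
  rw [hRe] at s1 s2 s3 s4
  have t1 : IsSparse S l (B * (max (a : ℝ) b) ^ δ) a := by
    rw [q1] at s1
    rcases hσ with h | h
    · rw [h] at s1
      simpa using s1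
    · rw [h] at s1
      simpa using sparse_neg s1
  have t2 : IsSparse S l (B * (max (a : ℝ) b) ^ δ) b := by
    rw [q2] at s2
    exact s2
  have t3 : IsSparse S l (B * (max (a : ℝ) b) ^ δ) ρ' := by
    have h1 : (ρ' : ℚ) = (s : ℚ)⁻¹ * ρ := by
      rw [hsr]
      push_cast
      field_simp
    rw [h1]
    exact sparse_unit_mul hS (sunit_inv hsu) s3
  obtain ⟨t', ht', s5⟩ : ∃ t' : ℚ, (ρ' : ℚ) ^ m = a * b * c * t' ∧
      IsSparse S l (B * (max (a : ℝ) b) ^ δ) t' := by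
    have hστ : (σ : ℚ) * τ = 1 ∨ (σ : ℚ) * τ = -1 := by
      rcases hσ with h | h <;> rcases hτ with h' | h' <;> rw [h, h'] <;> norm_num
    refine ⟨((s : ℚ) ^ m)⁻¹ * ((σ * τ) * t), ?_, ?_⟩
    · rw [q1, q2, q3] at ht
      have h1 : (ρ' : ℚ) ^ m = ((s : ℚ) ^ m)⁻¹ * (ρ : ℚ) ^ m := by
        rw [hsr]
        push_cast
        rw [mul_pow]
        field_simp
      rw [h1, ht]
      ring
    · refine sparse_unit_mul hS (sunit_inv (sunit_pow hS hsu m)) ?_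
      rcases hστ with h | h
      · rw [h, one_mul]; exact s4
      · rw [h, neg_one_mul]; exact sparse_neg s4
  have hlog := hmain a b c ha0 hb0 hc0 hcop hcs ρ' t' (Nat.pos_of_ne_zero hρ0) ht' t1 t2 t3 s5
  -- conclusion
  have hNpos := N6_pos x y
  have hle : g * ρ' ≤ P ^ (3 * G + 11) * (X * Y * N6 x y) := by
    rw [← hg] at hdvd
    exact Nat.le_of_dvd (by positivity) hdvd
  have hρR : (0 : ℝ) < ρ' := by
    have := Nat.pos_of_ne_zero hρ0
    exact_mod_cast this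
  have hXR : (0 : ℝ) < X := by
    have := Nat.pos_of_ne_zero hX0
    exact_mod_cast this
  have hYR : (0 : ℝ) < Y := by
    have := Nat.pos_of_ne_zero hY0
    exact_mod_cast this
  have hNR : (0 : ℝ) < N6 x y := by exact_mod_cast hNpos
  have hPR : (0 : ℝ) < P := by exact_mod_cast hP0
  have hlog2 : Real.log g + Real.log ρ' ≤ LP + (Real.log X + Real.log Y + Real.log (N6 x y)) := by
    have h1 : (g : ℝ) * ρ' ≤ (P : ℝ) ^ (3 * G + 11) * ((X : ℝ) * Y * N6 x y) := by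
      exact_mod_cast hle
    have h2 := Real.log_le_log (by positivity) h1
    rw [Real.log_mul hgR.ne' hρR.ne', Real.log_mul (by positivity) (by positivity),
      Real.log_mul (by positivity) hNR.ne', Real.log_mul hXR.ne' hYR.ne', Real.log_pow] at h2
    exact h2
  set M : ℝ := max (|(x : ℝ)| ^ 3) ((y : ℝ) ^ 2) with hM
  have hmaxpos : (0 : ℝ) < max (a : ℝ) b := lt_max_of_lt_left (by exact_mod_cast ha0)
  have hMlog : Real.log M = Real.log g + Real.log (max (a : ℝ) b) := by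
    rw [hmaxe, Real.log_mul hgR.ne' hmaxpos.ne']
  have hXM : 3 * Real.log X ≤ Real.log M := by
    have h2 : |(x : ℝ)| = (X : ℝ) := by
      rw [hX, Nat.cast_natAbs, Int.cast_abs]
    have h3 : (X : ℝ) ^ 3 ≤ M := by
      rw [← h2]
      exact le_max_left _ _
    have h4 := Real.log_le_log (by positivity) h3
    rw [Real.log_pow] at h4
    exact_mod_cast h4
  have hYM : 2 * Real.log Y ≤ Real.log M := by
    have h3 : (Y : ℝ) ^ 2 ≤ M := by
      have h4 : (y : ℝ) ^ 2 = (Y : ℝ) ^ 2 := by exact_mod_cast hy2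
      rw [← h4]
      exact le_max_right _ _
    have h4 := Real.log_le_log (by positivity) h3
    rw [Real.log_pow] at h4
    exact_mod_cast h4
  have hg1 : 0 ≤ Real.log g := Real.log_natCast_nonneg _
  have hfin : Real.log M ≤ (1 + ε1) * (LP + 5 / 6 * Real.log M + Real.log (N6 x y)) + |C| := by
    have h1 : Real.log g ≤ (1 + ε1) * Real.log g := by nlinarith
    have h2 : (1 + ε1) * (Real.log g + Real.log ρ') ≤
        (1 + ε1) * (LP + 5 / 6 * Real.log M + Real.log (N6 x y)) := by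
      refine mul_le_mul_of_nonneg_left ?_ (by linarith)
      linarith
    have h3 := le_abs_self C
    rw [mul_add] at h2
    linarith
  have h9 : (1 / 6 - 5 / 6 * ε1) * Real.log M ≤
      (1 / 6 - 5 / 6 * ε1) * ((6 + ε) * Real.log (N6 x y) +
        ((1 + ε1) * LP + |C|) / (1 / 6 - 5 / 6 * ε1)) := by
    rw [mul_add, mul_div_cancel₀ _ hq0.ne', ← mul_assoc, mul_comm _ (6 + ε), ← hqe]
    linarith
  exact le_of_mul_le_mul_left h9 hq0

end Pool.Agent.V11288.SZ
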